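import Pool.Agent.Lib.MP_0e3b4a_gt.Iface

set_option autoImplicit false

/-! # Modules LINA and LINB -/

namespace Pool.Agent.CutLoci.H59

open MeasureTheory Set Filter Topology

theorem null_of_windows (S : Set ℝ) (s0 : ℝ) (hs0 : 0 < s0)
    (h : ∀ a, volume (S ∩ Ioo a (a + s0)) = 0) : volume S = 0 := by
  have h1 : S ⊆ ⋃ n : ℤ, S ∩ Ioo (n * (s0 / 2)) (n * (s0 / 2) + s0) := by
    intro x hx
    rw [mem_iUnion]
    have hp : 0 < s0 / 2 := by positivity
    refine ⟨⌈x / (s0 / 2)⌉ - 1, hx, ?_, ?_⟩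
    · push_cast
      have h2 := Int.ceil_lt_add_one (x / (s0 / 2))
      have h3 : ((⌈x / (s0 / 2)⌉ : ℝ) - 1) < x / (s0 / 2) := by linarith
      rwa [lt_div_iff₀ hp] at h3
    · push_cast
      have h2 := Int.le_ceil (x / (s0 / 2))
      rw [div_le_iff₀ hp] at h2
      linarith
  exact measure_mono_null h1 (measure_iUnion_null fun n => h _)

theorem lsc_close {g h : ℝ → ℝ} (hg : LowerSemicontinuous g) (hh : Continuous h) (s0 : ℝ)
    (H : ∀ q : ℚ, (q : ℝ) ∈ Ioo 0 s0 → g q ≤ h q) : ∀ s ∈ Ioo (0 : ℝ) s0, g s ≤ h s := by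
  intro s hs
  by_contra hc
  push Not at hc
  have hl : LowerSemicontinuous fun s => g s + (- h s) := hg.add hh.neg.lowerSemicontinuous
  have ho : IsOpen ((fun s => g s + (- h s)) ⁻¹' Ioi 0 ∩ Ioo 0 s0) :=
    (hl.isOpen_preimage 0).inter isOpen_Ioo
  obtain ⟨q, hq1, hq2⟩ := Rat.denseRange_cast.exists_mem_open ho
    ⟨s, by simp only [mem_preimage, mem_Ioi]; linarith, hs⟩
  have h1 := H q hq2
  simp only [mem_preimage, mem_Ioi] at hq1
  linarith

section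

variable {E : Type} [NormedAddCommGroup E] [NormedSpace ℝ E] [FiniteDimensional ℝ E]
    [MeasurableSpace E] [BorelSpace E] (μ : Measure E) [μ.IsAddHaarMeasure]

theorem null_of_lines (A : Set E) (hA : MeasurableSet A) (ξ : E)
    (h : ∀ y, volume {t : ℝ | y + t • ξ ∈ A} = 0) : μ A = 0 := by
  have h1 := ae_mem_of_ae_add_linearMap_mem (LinearMap.toSpanSingleton ℝ E ξ) volume μ
    (s := Aᶜ) hA.compl (fun y => by
      rw [ae_iff]
      have h2 : {a : ℝ | ¬ y + (LinearMap.toSpanSingleton ℝ E ξ) a ∈ Aᶜ} =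
          {t : ℝ | y + t • ξ ∈ A} := by
        ext t
        simp
      rw [h2]
      exact h y)
  rw [ae_iff] at h1
  have h2 : {a : E | ¬ a ∈ Aᶜ} = A := by
    ext t
    simp
  rwa [h2] at h1

theorem linb_set (f : E → ℝ) (hf : LowerSemicontinuous f) (ξ : E) (α β s0 : ℝ) (hs0 : 0 < s0)
    (hab : α < β) : μ {b | ∀ q : ℚ, (q : ℝ) ∈ Ioo 0 s0 →
      f (b + (q : ℝ) • ξ) ≤ f b + α * q ∧ f (b - (q : ℝ) • ξ) ≤ f b - β * q} = 0 := by
  refine null_of_lines μ _ ?_ ξ fun y => ?_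
  · have h1 : {b | ∀ q : ℚ, (q : ℝ) ∈ Ioo 0 s0 →
        f (b + (q : ℝ) • ξ) ≤ f b + α * q ∧ f (b - (q : ℝ) • ξ) ≤ f b - β * q} =
        ⋂ q : ℚ, ⋂ _ : (q : ℝ) ∈ Ioo 0 s0, ({b | f (b + (q : ℝ) • ξ) ≤ f b + α * q} ∩
          {b | f (b - (q : ℝ) • ξ) ≤ f b - β * q}) := by
      ext b
      simp only [mem_iInter, mem_inter_iff]
      exact Iff.rfl
    rw [h1]
    refine MeasurableSet.iInter fun q => MeasurableSet.iInter fun _ => MeasurableSet.inter ?_ ?_
    · exact measurableSet_le (LowerSemicontinuous.comp hf (by fun_prop)).measurable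
        (hf.measurable.add_const _)
    · exact measurableSet_le (LowerSemicontinuous.comp hf (by fun_prop)).measurable
        (hf.measurable.sub_const _)
  · refine null_of_windows _ s0 hs0 fun a => ?_
    refine Set.Subsingleton.measure_zero ?_ _
    have key : ∀ t ∈ {t : ℝ | y + t • ξ ∈ {b | ∀ q : ℚ, (q : ℝ) ∈ Ioo 0 s0 →
        f (b + (q : ℝ) • ξ) ≤ f b + α * q ∧ f (b - (q : ℝ) • ξ) ≤ f b - β * q}} ∩
          Ioo a (a + s0), ∀ t' ∈ {t : ℝ | y + t • ξ ∈ {b | ∀ q : ℚ, (q : ℝ) ∈ Ioo 0 s0 →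
        f (b + (q : ℝ) • ξ) ≤ f b + α * q ∧ f (b - (q : ℝ) • ξ) ≤ f b - β * q}} ∩
          Ioo a (a + s0), ¬ t < t' := by
      rintro t ⟨ht, hta, hta'⟩ t' ⟨ht', hta1, hta1'⟩ hlt
      have hτ : t' - t ∈ Ioo (0 : ℝ) s0 := ⟨by linarith, by linarith⟩
      have h1 : ∀ s ∈ Ioo (0 : ℝ) s0, f (y + t • ξ + s • ξ) ≤ f (y + t • ξ) + α * s :=
        lsc_close (LowerSemicontinuous.comp hf (by fun_prop)) (by fun_prop) s0 fun q hq => (ht q hq).1
      have h2 : ∀ s ∈ Ioo (0 : ℝ) s0, f (y + t' • ξ - s • ξ) ≤ f (y + t' • ξ) - β * s :=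
        lsc_close (LowerSemicontinuous.comp hf (by fun_prop)) (by fun_prop) s0 fun q hq => (ht' q hq).2
      have h3 := h1 _ hτ
      have h4 := h2 _ hτ
      have e1 : y + t • ξ + (t' - t) • ξ = y + t' • ξ := by
        rw [sub_smul]; abel
      have e2 : y + t' • ξ - (t' - t) • ξ = y + t • ξ := by
        rw [sub_smul]; abel
      rw [e1] at h3
      rw [e2] at h4
      have h5 : 0 < (β - α) * (t' - t) := mul_pos (by linarith) hτ.1
      nlinarith
    intro t ht t' ht'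
    exact le_antisymm (not_lt.1 (key t' ht' t ht)) (not_lt.1 (key t ht t' ht'))

theorem drop_line (φ : ℝ → ℝ) (T : Set ℝ) (c : ℝ) (hc : 0 < c)
    (h : ∀ t ∈ T, ∀ t' ∈ T, t < t' → φ t' ≤ φ t - c * Real.sqrt (t' - t)) : volume T = 0 := by
  have hm : MonotoneOn (fun t => - φ t) T := by
    intro t ht t' ht' htt
    rcases eq_or_lt_of_le htt with rfl | hlt
    · exact le_rfl
    · have h1 := h t ht t' ht' hlt
      have h2 : 0 ≤ c * Real.sqrt (t' - t) := by positivity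
      simp only
      linarith
  have h1 := hm.ae_differentiableWithinAt_of_mem
  have h2 : ∀ᵐ x : ℝ, ¬ (x ∈ T ∧ 𝓝[T ∩ Ioi x] x = ⊥) := by
    have h3 : {x ∈ T | 𝓝[T ∩ Ioi x] x = ⊥}.Countable := countable_setOfPred_isolated_right_within
    rw [ae_iff]
    simp only [not_not]
    exact h3.measure_zero _
  have h3 : ∀ᵐ x : ℝ, x ∉ T := by
    filter_upwards [h1, h2] with x hx1 hx2 hxT
    have hd := (hx1 hxT).hasDerivWithinAt
    rw [hasDerivWithinAt_iff_tendsto_slope] at hd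
    set D := derivWithin (fun t => - φ t) T x with hD
    have hne : (𝓝[T ∩ Ioi x] x).NeBot := ⟨fun h0 => hx2 ⟨hxT, h0⟩⟩
    have hle : 𝓝[T ∩ Ioi x] x ≤ 𝓝[T \ {x}] x :=
      nhdsWithin_mono _ fun t ht => ⟨ht.1, ne_of_gt ht.2⟩
    have h4 : ∀ᶠ t in 𝓝[T ∩ Ioi x] x, slope (fun t => - φ t) x t < |D| + 1 :=
      (hd.mono_left hle).eventually (gt_mem_nhds (lt_of_le_of_lt (le_abs_self D) (lt_add_one _)))
    have h5 : ∀ᶠ t in 𝓝[T ∩ Ioi x] x, t < x + (c / (|D| + 1)) ^ 2 :=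
      nhdsWithin_le_nhds (gt_mem_nhds (by
        have : 0 < (c / (|D| + 1)) ^ 2 := by positivity
        linarith))
    have h6 : ∀ᶠ t in 𝓝[T ∩ Ioi x] x, t ∈ T ∩ Ioi x := self_mem_nhdsWithin
    obtain ⟨t, ht1, ht2, ht3, ht4⟩ := (h4.and (h5.and h6)).exists
    rw [mem_Ioi] at ht4
    have ht5 : 0 < t - x := by linarith
    rw [slope_def_field, div_lt_iff₀ ht5] at ht1
    have h7 := h x hxT t ht3 ht4
    have h8 : c * Real.sqrt (t - x) < (|D| + 1) * (t - x) := by linarith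
    have h9 : Real.sqrt (t - x) < c / (|D| + 1) := by
      rw [Real.sqrt_lt' (by positivity)]
      linarith
    have h10 : 0 < Real.sqrt (t - x) := Real.sqrt_pos.2 ht5
    have h11 : t - x = Real.sqrt (t - x) * Real.sqrt (t - x) := (Real.mul_self_sqrt ht5.le).symm
    rw [lt_div_iff₀ (by positivity)] at h9
    rw [h11] at h8
    rw [← h11] at h8
    have h12 : c * Real.sqrt (t - x) < (Real.sqrt (t - x) * (|D| + 1)) * Real.sqrt (t - x) := by
      calc c * Real.sqrt (t - x) < (|D| + 1) * (t - x) := h8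
        _ = (Real.sqrt (t - x) * (|D| + 1)) * Real.sqrt (t - x) := by
          conv_lhs => rw [h11]
          ring
    have h13 : c < Real.sqrt (t - x) * (|D| + 1) := lt_of_mul_lt_mul_right h12 h10.le
    linarith
  rw [ae_iff] at h3
  simpa using h3

theorem lina_set (f : E → ℝ) (hf : LowerSemicontinuous f) (ξ : E) (c s0 : ℝ) (hs0 : 0 < s0)
    (hc : 0 < c) : μ {b | ∀ q : ℚ, (q : ℝ) ∈ Ioo 0 s0 →
      f (b + (q : ℝ) • ξ) ≤ f b - c * Real.sqrt q} = 0 := by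
  refine null_of_lines μ _ ?_ ξ fun y => ?_
  · have h1 : {b | ∀ q : ℚ, (q : ℝ) ∈ Ioo 0 s0 →
        f (b + (q : ℝ) • ξ) ≤ f b - c * Real.sqrt q} =
        ⋂ q : ℚ, ⋂ _ : (q : ℝ) ∈ Ioo 0 s0,
          {b | f (b + (q : ℝ) • ξ) ≤ f b - c * Real.sqrt q} := by
      ext b
      simp only [mem_iInter]
      exact Iff.rfl
    rw [h1]
    refine MeasurableSet.iInter fun q => MeasurableSet.iInter fun _ => ?_
    exact measurableSet_le (LowerSemicontinuous.comp hf (by fun_prop)).measurable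
      (hf.measurable.sub_const _)
  · refine null_of_windows _ s0 hs0 fun a => ?_
    refine drop_line (fun t => f (y + t • ξ)) _ c hc ?_
    rintro t ⟨ht, hta, hta'⟩ t' ⟨ht', hta1, hta1'⟩ hlt
    have hτ : t' - t ∈ Ioo (0 : ℝ) s0 := ⟨by linarith, by linarith⟩
    have h1 : ∀ s ∈ Ioo (0 : ℝ) s0, f (y + t • ξ + s • ξ) ≤ f (y + t • ξ) - c * Real.sqrt s :=
      lsc_close (LowerSemicontinuous.comp hf (by fun_prop)) (by fun_prop) s0 fun q hq => ht q hq
    have h3 := h1 _ hτ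
    have e1 : y + t • ξ + (t' - t) • ξ = y + t' • ξ := by
      rw [sub_smul]; abel
    rwa [e1] at h3

end

theorem lina : LinaStatement := by
  intro E _ _ _ _ _ μ _ f hf _
  refine measure_mono_null (t := ⋃ k : ℕ, ⋃ m : ℕ, ⋃ m' : ℕ,
    {b | ∀ q : ℚ, (q : ℝ) ∈ Ioo 0 (1 / ((m : ℝ) + 1)) →
      f (b + (q : ℝ) • TopologicalSpace.denseSeq E k) ≤ f b - 1 / ((m' : ℝ) + 1) * Real.sqrt q})
      ?_ ?_
  · rintro b ⟨O, c, s0, hO, hne, hc, hs0, h⟩
    obtain ⟨k, hk⟩ := (TopologicalSpace.denseRange_denseSeq E).exists_mem_open hO hne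
    obtain ⟨m, hm⟩ := exists_nat_one_div_lt hs0
    obtain ⟨m', hm'⟩ := exists_nat_one_div_lt hc
    rw [mem_iUnion]
    refine ⟨k, ?_⟩
    rw [mem_iUnion]
    refine ⟨m, ?_⟩
    rw [mem_iUnion]
    refine ⟨m', fun q hq => ?_⟩
    refine (h _ hk q ⟨hq.1, hq.2.trans hm⟩).trans ?_
    have h1 : 1 / ((m' : ℝ) + 1) * Real.sqrt q ≤ c * Real.sqrt q :=
      mul_le_mul_of_nonneg_right hm'.le (Real.sqrt_nonneg _)
    linarith
  · refine measure_iUnion_null fun k => measure_iUnion_null fun m => measure_iUnion_null fun m' =>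
      lina_set μ f hf _ _ _ (by positivity) (by positivity)

theorem linb : LinbStatement := by
  intro E _ _ _ _ _ μ _ f hf
  refine measure_mono_null (t := ⋃ k : ℕ, ⋃ m : ℕ, ⋃ α : ℚ, ⋃ β : ℚ, ⋃ _ : α < β,
    {b | ∀ q : ℚ, (q : ℝ) ∈ Ioo 0 (1 / ((m : ℝ) + 1)) →
      f (b + (q : ℝ) • TopologicalSpace.denseSeq E k) ≤ f b + α * q ∧
        f (b - (q : ℝ) • TopologicalSpace.denseSeq E k) ≤ f b - β * q}) ?_ ?_
  · rintro b ⟨p, p', hpp, hp, hp'⟩
    have hO : IsOpen {ξ : E | p ξ ≠ p' ξ} := isOpen_ne_fun p.continuous p'.continuous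
    have hne : {ξ : E | p ξ ≠ p' ξ}.Nonempty := by
      by_contra h
      rw [not_nonempty_iff_eq_empty, eq_empty_iff_forall_notMem] at h
      apply hpp
      ext ξ
      by_contra h1
      exact h ξ h1
    obtain ⟨k, hk⟩ := (TopologicalSpace.denseRange_denseSeq E).exists_mem_open hO hne
    rw [mem_iUnion]
    refine ⟨k, ?_⟩
    set ξ := TopologicalSpace.denseSeq E k with hξ
    have key : ∀ p p' : E →L[ℝ] ℝ, SuperAt f b p → SuperAt f b p' → p ξ < p' ξ →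
        ∃ (m : ℕ) (α β : ℚ), α < β ∧ ∀ q : ℚ, (q : ℝ) ∈ Ioo 0 (1 / ((m : ℝ) + 1)) →
          f (b + (q : ℝ) • ξ) ≤ f b + α * q ∧ f (b - (q : ℝ) • ξ) ≤ f b - β * q := by
      intro p p' hp hp' hlt
      obtain ⟨α, hα1, hα2⟩ := exists_rat_btwn hlt
      obtain ⟨β, hβ1, hβ2⟩ := exists_rat_btwn hα2
      obtain ⟨s1, hs1, h1⟩ := hp ξ (α - p ξ) (by linarith)
      obtain ⟨s2, hs2, h2⟩ := hp' (-ξ) (p' ξ - β) (by linarith)
      obtain ⟨m, hm⟩ := exists_nat_one_div_lt (lt_min hs1 hs2)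
      refine ⟨m, α, β, by exact_mod_cast hβ1, fun q hq => ⟨?_, ?_⟩⟩
      · have h3 := h1 q ⟨hq.1, (hq.2.trans hm).trans_le (min_le_left _ _)⟩
        refine h3.trans (le_of_eq ?_)
        ring
      · have h3 := h2 q ⟨hq.1, (hq.2.trans hm).trans_le (min_le_right _ _)⟩
        rw [smul_neg, ← sub_eq_add_neg, map_neg] at h3
        refine h3.trans (le_of_eq ?_)
        ring
    have hex : ∃ (m : ℕ) (α β : ℚ), α < β ∧ ∀ q : ℚ, (q : ℝ) ∈ Ioo 0 (1 / ((m : ℝ) + 1)) →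
          f (b + (q : ℝ) • ξ) ≤ f b + α * q ∧ f (b - (q : ℝ) • ξ) ≤ f b - β * q := by
      rcases lt_or_gt_of_ne hk with h | h
      · exact key p p' hp hp' h
      · exact key p' p hp' hp h
    obtain ⟨m, α, β, hab, H⟩ := hex
    rw [mem_iUnion]
    refine ⟨m, ?_⟩
    rw [mem_iUnion]
    refine ⟨α, ?_⟩
    rw [mem_iUnion]
    refine ⟨β, ?_⟩
    rw [mem_iUnion]
    exact ⟨hab, H⟩
  · refine measure_iUnion_null fun k => measure_iUnion_null fun m => measure_iUnion_null fun α =>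
      measure_iUnion_null fun β => measure_iUnion_null fun hab =>
      linb_set μ f hf _ _ _ _ (by positivity) (by exact_mod_cast hab)

end Pool.Agent.CutLoci.H59
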