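import Pool.Agent.Lib.MP_0e3b4a_gt.Iface

set_option autoImplicit false

/-! # Module RANK -/

namespace Pool.Agent.CutLoci.H59

open Set Filter Topology

theorem rank_aux (K : Type) [AddCommGroup K] [Module ℝ K] (d : ℕ)
    (B : K →ₗ[ℝ] K →ₗ[ℝ] (Fin d → ℝ)) (φ : K →ₗ[ℝ] ℝ) (v : K) (hv : φ v < 0)
    (hmax : ∀ v', φ v' < 0 →
      Module.finrank ℝ (LinearMap.range (B v')) ≤ Module.finrank ℝ (LinearMap.range (B v)))
    (x k : K) (hx : B v x = 0) : B k x ∈ LinearMap.range (B v) := by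
  by_contra hy
  set r := Module.finrank ℝ (LinearMap.range (B v)) with hr
  let b : Module.Basis (Fin r) ℝ (LinearMap.range (B v)) := Module.finBasisOfFinrankEq ℝ _ rfl
  have hb : ∀ j, ∃ kj, B v kj = (b j : Fin d → ℝ) := fun j => (b j).2
  choose kk hkk using hb
  let F : ℝ → Fin (r + 1) → (Fin d → ℝ) := fun ε =>
    Fin.cons (B k x) (fun j => B v (kk j) + ε • B k (kk j))
  have hF0 : LinearIndependent ℝ (F 0) := by
    have h1 : F 0 = Fin.cons (B k x) (fun j => (b j : Fin d → ℝ)) := by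
      simp only [F, zero_smul, add_zero, hkk]
    rw [h1, linearIndependent_finCons]
    refine ⟨?_, ?_⟩
    · have h2 := b.linearIndependent.map' (LinearMap.range (B v)).subtype
        (Submodule.ker_subtype _)
      exact h2
    · intro h2
      apply hy
      refine (Submodule.span_le.2 ?_) h2
      rintro _ ⟨j, rfl⟩
      exact (b j).2
  have hFc : Continuous F := by
    refine continuous_pi fun j => ?_
    refine Fin.cases ?_ (fun j => ?_) j
    · exact continuous_const
    · exact continuous_const.add (continuous_id.smul continuous_const)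
  have hopen : IsOpen {ε : ℝ | LinearIndependent ℝ (F ε)} :=
    (isOpen_setOfPred_linearIndependent (𝕜 := ℝ) (E := Fin d → ℝ) (ι := Fin (r + 1))).preimage hFc
  have h1 : ∀ᶠ ε in 𝓝 (0 : ℝ), LinearIndependent ℝ (F ε) := hopen.mem_nhds hF0
  have h2 : ∀ᶠ ε in 𝓝 (0 : ℝ), φ v + ε * φ k < 0 := by
    have hc : Continuous fun ε : ℝ => φ v + ε * φ k := by fun_prop
    have h3 := hc.tendsto 0
    simp only [zero_mul, add_zero] at h3
    exact h3.eventually (gt_mem_nhds hv)
  have h3 : ∀ᶠ ε in 𝓝[>] (0 : ℝ), LinearIndependent ℝ (F ε) ∧ φ v + ε * φ k < 0 ∧ 0 < ε :=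
    ((h1.filter_mono nhdsWithin_le_nhds).and (h2.filter_mono nhdsWithin_le_nhds)).and
      self_mem_nhdsWithin |>.mono fun ε h => ⟨h.1.1, h.1.2, h.2⟩
  obtain ⟨ε, hε1, hε2, hε3⟩ := h3.exists
  have h4 : ∀ j, F ε j ∈ LinearMap.range (B (v + ε • k)) := by
    intro j
    refine Fin.cases ?_ (fun j => ?_) j
    · refine ⟨ε⁻¹ • x, ?_⟩
      simp only [F, Fin.cons_zero, map_add, map_smul, LinearMap.add_apply, LinearMap.smul_apply, hx,
        zero_add]
      rw [smul_smul, inv_mul_cancel₀ hε3.ne', one_smul]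
    · refine ⟨kk j, ?_⟩
      simp only [F, Fin.cons_succ, map_add, map_smul, LinearMap.add_apply, LinearMap.smul_apply]
  have h5 : r + 1 ≤ Module.finrank ℝ (LinearMap.range (B (v + ε • k))) := by
    have h6 : LinearIndependent ℝ (fun j : Fin (r + 1) =>
        (⟨F ε j, h4 j⟩ : LinearMap.range (B (v + ε • k)))) := by
      apply LinearIndependent.of_comp (LinearMap.range (B (v + ε • k))).subtype
      exact hε1
    have h7 := h6.fintype_card_le_finrank
    rwa [Fintype.card_fin] at h7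
  have h6 := hmax (v + ε • k) (by simpa using hε2)
  omega

theorem rank : RankStatement := by
  intro K E _ _ _ _ _ B φ I hφ
  -- the quotient
  let e := LinearEquiv.ofFinrankEq (E ⧸ I) (Fin (Module.finrank ℝ (E ⧸ I)) → ℝ)
    (Module.finrank_fin_fun (R := ℝ)).symm
  let q : E →ₗ[ℝ] (Fin (Module.finrank ℝ (E ⧸ I)) → ℝ) := e.toLinearMap.comp I.mkQ
  have hq : ∀ y, q y = 0 ↔ y ∈ I := by
    intro y
    change e (I.mkQ y) = 0 ↔ _
    rw [LinearEquiv.map_eq_zero_iff]
    exact Submodule.Quotient.mk_eq_zero I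
  have hqs : Function.Surjective q := e.surjective.comp I.mkQ_surjective
  let B' : K →ₗ[ℝ] K →ₗ[ℝ] (Fin (Module.finrank ℝ (E ⧸ I)) → ℝ) := B.compr₂ q
  have hB' : ∀ a b, B' a b = q (B a b) := fun a b => rfl
  -- the maximal rank
  let S : Set ℕ := {m | ∃ v, φ v < 0 ∧ Module.finrank ℝ (LinearMap.range (B' v)) = m}
  have hSne : S.Nonempty := by
    obtain ⟨v, hv⟩ := hφ
    exact ⟨_, v, hv, rfl⟩
  have hSb : BddAbove S := by
    refine ⟨Module.finrank ℝ (Fin (Module.finrank ℝ (E ⧸ I)) → ℝ), ?_⟩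
    rintro _ ⟨v, -, rfl⟩
    exact Submodule.finrank_le _
  obtain ⟨v, hv, hvS⟩ := Nat.sSup_mem hSne hSb
  have hmax : ∀ v', φ v' < 0 → Module.finrank ℝ (LinearMap.range (B' v')) ≤
      Module.finrank ℝ (LinearMap.range (B' v)) := by
    intro v' hv'
    rw [hvS]
    exact le_csSup hSb ⟨v', hv', rfl⟩
  by_cases htop : LinearMap.range (B' v) = ⊤
  · left
    refine ⟨v, hv, fun y => ?_⟩
    obtain ⟨k, hk⟩ := LinearMap.range_eq_top.1 htop (q y)
    refine ⟨k, y - B v k, ?_, by abel⟩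
    rw [← hq, map_sub, ← hk, hB', sub_self]
  · right
    obtain ⟨l, hl0, hl⟩ := Submodule.exists_le_ker_of_lt_top _ (lt_top_iff_ne_top.2 htop)
    refine ⟨l.comp q, ?_, ?_, LinearMap.ker (B' v), ?_, ?_⟩
    · intro h0
      apply hl0
      ext1 j
      ext1
      obtain ⟨y, hy⟩ := hqs (LinearMap.single ℝ (fun _ => ℝ) j 1)
      have h1 : l (q y) = 0 := LinearMap.congr_fun h0 y
      rw [hy] at h1
      simpa using h1
    · intro i hi
      change l (q i) = 0
      rw [(hq i).2 hi, map_zero]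
    · exact FiniteDimensional.of_injective
        ((B' v).quotKerEquivRange.toLinearMap) (B' v).quotKerEquivRange.injective
    · intro x hx k
      have h1 := rank_aux K _ B' φ v hv hmax x k hx
      exact hl h1

end Pool.Agent.CutLoci.H59
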